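import Pool.Agent.H10.FEW.Stmts

/-! FEW, module FAM: few pairs `(e, M)` serve all triples. -/

set_option autoImplicit false

namespace Pool.FEW

open Finset Pool.Agent.H98.ABCR Pool.SHA

private theorem nn_pos {v : ℕ × ℕ} (hv : IsTri v) : 0 < nn v := by
  unfold nn
  have := hv.1
  have := hv.2.1
  positivity

/-- a set of divisors which are primes `≥ z` of a number with radical `≤ X` -/
private theorem fam_card {v : ℕ × ℕ} (hv : IsTri v) {X z : ℝ} (hz : 0 ≤ z)
    (hR : (RR v : ℝ) ≤ X) (Z : Finset ℕ) (hZ : ∀ l ∈ Z, l.Prime ∧ l ∣ nn v ∧ z ≤ (l : ℝ)) :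
    z ^ Z.card ≤ X := by
  have h1 : Z ⊆ (nn v).primeFactors := by
    intro l hl
    exact Nat.mem_primeFactors.mpr ⟨(hZ l hl).1, (hZ l hl).2.1, (nn_pos hv).ne'⟩
  have h2 : (∏ l ∈ Z, l) ∣ RR v := by
    unfold RR rad
    exact prod_dvd_prod_of_subset _ _ _ h1
  have h3 : 0 < RR v := by
    unfold RR rad
    exact prod_pos (fun p hp => (Nat.prime_of_mem_primeFactors hp).pos)
  have h4 : (∏ l ∈ Z, l) ≤ RR v := Nat.le_of_dvd h3 h2
  calc z ^ Z.card = ∏ _l ∈ Z, z := by rw [prod_const]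
    _ ≤ ∏ l ∈ Z, (l : ℝ) := prod_le_prod (fun _ _ => hz) (fun l hl => (hZ l hl).2.2)
    _ = ((∏ l ∈ Z, l : ℕ) : ℝ) := by push_cast; rfl
    _ ≤ (RR v : ℝ) := by exact_mod_cast h4
    _ ≤ X := hR

/-- the exponents of a triple -/
private theorem fam_exp {v : ℕ × ℕ} (hv : IsTri v) {H : ℝ} (hH : hh v ≤ H) {p : ℕ}
    (hp : p.Prime) : (((nn v).factorization p : ℕ) : ℝ) ≤ 5 * H := by
  have hn := nn_pos hv
  have h1 : p ^ (nn v).factorization p ∣ nn v := Nat.ordProj_dvd _ _
  have h2 : p ^ (nn v).factorization p ≤ nn v := Nat.le_of_dvd hn h1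
  have h3 : nn v ≤ (v.1 + v.2) ^ 3 := by
    unfold nn
    calc v.1 * v.2 * (v.1 + v.2) ≤ (v.1 + v.2) * (v.1 + v.2) * (v.1 + v.2) :=
          Nat.mul_le_mul (Nat.mul_le_mul (by omega) (by omega)) le_rfl
      _ = (v.1 + v.2) ^ 3 := by ring
  have h4 : 2 ^ (nn v).factorization p ≤ (v.1 + v.2) ^ 3 :=
    (Nat.pow_le_pow_left hp.two_le _).trans (h2.trans h3)
  have h5 : ((2 : ℝ)) ^ (nn v).factorization p ≤ ((v.1 + v.2 : ℕ) : ℝ) ^ 3 := by exact_mod_cast h4
  have h6 := Real.log_le_log (by positivity) h5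
  rw [Real.log_pow, Real.log_pow] at h6
  unfold hh at hH
  have h7 := Real.log_two_gt_d9
  have h8 : (0 : ℝ) ≤ ((nn v).factorization p : ℕ) := by positivity
  push_cast at h6 hH ⊢
  nlinarith

private theorem fam_c {a : ℝ} (ha : 6561 ≤ a) : 6561 * a ^ 2 ≤ a ^ 3 ∧ 6561 * a ≤ a ^ 2 := by
  constructor <;> nlinarith [mul_nonneg (sub_nonneg.2 ha) (sq_nonneg a)]

private theorem fam_d {u w L : ℝ} (hw : 0 < w) (hL : w = L - u) (h : 4 * u ≤ L) (a : ℝ)
    (ha : 0 ≤ a) : 3 * a / w * L ≤ 4 * a := by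
  rw [div_mul_eq_mul_div, div_le_iff₀ hw, hL]
  nlinarith

private theorem fam_e {n q a B : ℝ} (hn : 0 ≤ n) (hq : 1 ≤ q) (h : n * q ≤ a) (hB : a < B) :
    n < B := by nlinarith

private theorem fam_f {n a L : ℝ} (hn : 0 ≤ n) (hL : 0.6931471803 < L) (h : n * L ≤ a) :
    n ≤ 2 * a := by nlinarith

theorem fam_thm (h1 : S_MOD) (h2 : S_CHO) (h3 : S_BLK) : S_FAM := by
  classical
  intro σ hσ hσ1
  obtain ⟨τ, y0, hτ, hmod⟩ := h1 σ hσ
  set C0 : ℝ := max 1 (3 / τ) with hC0
  have hC1 : 1 ≤ C0 := le_max_left _ _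
  have hC3 : 3 ≤ C0 * τ := by
    have : 3 / τ ≤ C0 := le_max_right _ _
    rwa [div_le_iff₀ hτ] at this
  set Λ0 : ℝ := max (max y0 ((64 : ℝ) ^ (1 / σ))) 6561 with hΛ0
  refine ⟨C0 + 3, Real.exp Λ0, by linarith, ?_, ?_⟩
  · have h4 : (6561 : ℝ) ≤ Λ0 := le_max_right _ _
    have h5 := Real.add_one_le_exp Λ0
    linarith
  intro X H hX hH
  have hX0 : 0 < X := lt_of_lt_of_le (Real.exp_pos _) hX
  have hH0 : 0 < H := lt_of_lt_of_le one_pos hH
  have hlX : Λ0 ≤ Real.log X := (Real.le_log_iff_exp_le hX0).mpr hX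
  set a := Real.log X with ha
  set Λ := Real.log (X * H) with hΛ
  have hΛe : Λ = a + Real.log H := Real.log_mul hX0.ne' hH0.ne'
  have hlH : 0 ≤ Real.log H := Real.log_nonneg hH
  have haΛ : a ≤ Λ := by linarith
  have h6561 : (6561 : ℝ) ≤ Λ0 := le_max_right _ _
  have ha1 : (6561 : ℝ) ≤ a := h6561.trans hlX
  have hΛ1 : (6561 : ℝ) ≤ Λ := ha1.trans haΛ
  have hΛ11 : (1 : ℝ) ≤ Λ := by linarith
  have hΛpos : 0 < Λ := by linarith
  set y : ℝ := Λ ^ C0 with hy
  have hΛy : Λ ≤ y := by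
    calc Λ = Λ ^ (1 : ℝ) := (Real.rpow_one _).symm
      _ ≤ Λ ^ C0 := Real.rpow_le_rpow_of_exponent_le hΛ11 hC1
  have hy1 : (6561 : ℝ) ≤ y := hΛ1.trans hΛy
  have hypos : 0 < y := by linarith
  have hy0 : y0 ≤ y := ((le_max_left _ _).trans (le_max_left _ _)).trans
    (hlX.trans (haΛ.trans hΛy))
  have h64 : 64 ≤ y ^ σ := by
    have h5 : (64 : ℝ) ^ (1 / σ) ≤ y := ((le_max_right _ _).trans (le_max_left _ _)).trans
      (hlX.trans (haΛ.trans hΛy))
    calc (64 : ℝ) = ((64 : ℝ) ^ (1 / σ)) ^ σ := by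
          rw [← Real.rpow_mul (by norm_num), one_div_mul_cancel hσ.ne', Real.rpow_one]
      _ ≤ y ^ σ := Real.rpow_le_rpow (by positivity) h5 hσ.le
  have hyτ : Λ ^ (3 : ℕ) ≤ y ^ τ := by
    rw [hy, ← Real.rpow_mul hΛpos.le]
    calc Λ ^ (3 : ℕ) = Λ ^ (3 : ℝ) := by rw [← Real.rpow_natCast]; norm_num
      _ ≤ Λ ^ (C0 * τ) := Real.rpow_le_rpow_of_exponent_le hΛ11 hC3
  obtain ⟨E, hEc, hEco, hE⟩ := hmod y hy0
  -- logarithms
  have hl9 : 0 < Real.log 9 := Real.log_pos (by norm_num)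
  have hly : 4 * Real.log 9 ≤ Real.log y := by
    have : Real.log (6561 : ℝ) = 4 * Real.log 9 := by
      rw [show (6561 : ℝ) = 9 ^ 4 by norm_num, Real.log_pow]; norm_num
    rw [← this]
    exact Real.log_le_log (by norm_num) hy1
  have hly9 : Real.log (y / 9) = Real.log y - Real.log 9 :=
    Real.log_div hypos.ne' (by norm_num)
  have hl91 : 1 ≤ Real.log 9 := by
    rw [Real.le_log_iff_exp_le (by norm_num)]
    have := Real.exp_one_lt_d9
    linarith
  set q := Real.log (y / 9) with hq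
  have hq1 : 1 ≤ q := by rw [hly9]; linarith
  have hq0 : 0 < q := by linarith
  set m : ℕ := ⌈3 * a / q⌉₊ with hm
  set B : ℕ := ⌊a⌋₊ + 2 with hB
  have hm1 : 3 * a / q ≤ (m : ℝ) := Nat.le_ceil _
  have hm2 : (m : ℝ) ≤ 3 * a / q + 1 := (Nat.ceil_lt_add_one (by positivity)).le
  have hB1 : (B : ℝ) ≤ a + 2 := by
    rw [hB]; push_cast
    have := Nat.floor_le (show 0 ≤ a by linarith)
    linarith
  have hB2 : a < (B : ℝ) := by
    rw [hB]; push_cast
    have := Nat.lt_floor_add_one a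
    linarith
  have hmB : (m : ℝ) * B ≤ a ^ 3 := by
    have h5 : (m : ℝ) ≤ 3 * a + 1 := by
      have : 3 * a / q ≤ 3 * a := div_le_self (by positivity) hq1
      linarith
    calc (m : ℝ) * B ≤ (3 * a + 1) * (a + 2) := by gcongr
      _ ≤ a ^ 3 := by
          have h6 := (fam_c ha1).1
          have h7 := (fam_c ha1).2
          have h8 : (3 * a + 1) * (a + 2) = 3 * a ^ 2 + 7 * a + 2 := by ring
          rw [h8]; linarith
  have hexp3 : X ^ 3 = Real.exp (3 * a) := by
    rw [show (3 : ℝ) * a = a + a + a by ring, Real.exp_add, Real.exp_add, ha,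
      Real.exp_log hX0]
    ring
  -- the blocks of one modulus
  have hblk : ∀ e ∈ E, ∃ Bs : Finset (Finset ℕ), (Bs.card : ℝ) ≤ a + 2 ∧
      (∀ M ∈ Bs, GM X y σ e M) ∧
      ∀ v : ℕ × ℕ, IsTri v → (RR v : ℝ) ≤ X → ∃ M ∈ Bs, ∀ l ∈ M, ¬ l ∣ nn v := by
    intro e he
    obtain ⟨hel, L, hLc, hL⟩ := hE e he
    have hLB : m * B ≤ L.card := by
      have h5 : ((m * B : ℕ) : ℝ) ≤ (L.card : ℝ) := by
        push_cast
        calc (m : ℝ) * B ≤ a ^ 3 := hmB
          _ ≤ Λ ^ 3 := by gcongr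
          _ ≤ y ^ τ := hyτ
          _ ≤ L.card := hLc
      exact_mod_cast h5
    obtain ⟨Bs, hBc, hBM, hBd⟩ := h3 L m B hLB
    refine ⟨Bs, ?_, ?_, ?_⟩
    · exact le_trans (by exact_mod_cast hBc) hB1
    · intro M hM
      obtain ⟨hML, hMc⟩ := hBM M hM
      have hL0 : 0 < L.card := by
        have h5 : (0 : ℝ) < L.card := lt_of_lt_of_le (by positivity) hLc
        exact_mod_cast h5
      obtain ⟨l0, hl0⟩ := card_pos.mp hL0
      have hl0' := hL l0 hl0
      have hl01 : 0 < l0 - 1 := by have := hl0'.1.two_le; omega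
      refine ⟨Nat.pos_of_dvd_of_pos hl0'.2.1 hl01, hel, fun l hl => hL l (hML hl), ?_, ?_, ?_⟩
      · rw [hexp3]
        calc Real.exp (3 * a) ≤ Real.exp (q * m) := by
              apply Real.exp_le_exp.mpr
              rw [div_le_iff₀ hq0] at hm1
              linarith
          _ = (y / 9) ^ m := by
              rw [mul_comm, Real.exp_nat_mul, hq, Real.exp_log (by positivity)]
          _ = ∏ _l ∈ M, (y / 9) := by rw [prod_const, hMc]
          _ ≤ ∏ l ∈ M, (l : ℝ) := by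
              apply prod_le_prod (fun _ _ => by positivity)
              intro l hl
              have := (hL l (hML hl)).2.2.1
              linarith
      · rw [hMc]
        have h5 : (m : ℝ) * Real.log y ≤ (3 * a / q + 1) * Real.log y := by
          gcongr
          linarith
        have h6 : 3 * a / q * Real.log y ≤ 4 * a := fam_d hq0 hly9 hly a (by linarith)
        rw [add_mul, one_mul] at h5
        linarith
      · have h5 : e ≤ l0 - 1 := Nat.le_of_dvd hl01 hl0'.2.1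
        have h6 : (e : ℝ) ≤ l0 := by exact_mod_cast h5.trans (Nat.sub_le _ _)
        linarith [hl0'.2.2.2]
    · intro v hv hR
      obtain ⟨M, hM, hd⟩ := hBd (L.filter (fun l => l ∣ nn v)) (by
        have h5 := fam_card hv (show (0 : ℝ) ≤ y / 9 by positivity) hR
          (L.filter (fun l => l ∣ nn v)) (fun l hl => by
            have hl' := mem_filter.mp hl
            exact ⟨(hL l hl'.1).1, hl'.2, by linarith [(hL l hl'.1).2.2.1]⟩)
        have h6 := Real.log_le_log (by positivity) h5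
        rw [Real.log_pow] at h6
        have h7 : ((L.filter (fun l => l ∣ nn v)).card : ℝ) < B := by
          have h8 : (0 : ℝ) ≤ ((L.filter (fun l => l ∣ nn v)).card : ℝ) := by positivity
          exact fam_e h8 hq1 h6 hB2
        exact_mod_cast h7)
      refine ⟨M, hM, fun l hl hln => ?_⟩
      exact (disjoint_left.mp hd) hl (mem_filter.mpr ⟨(hBM M hM).1 hl, hln⟩)
  choose! Bs hBc hBG hBv using hblk
  have hE8 : (E.card : ℝ) ≤ 8 * y := by
    have h5 : E ⊆ Icc 1 ⌊8 * y⌋₊ := by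
      intro e he
      have hB0 : (Bs e).Nonempty := by
        obtain ⟨M, hM, _⟩ := hBv e he (1, 1) ⟨by norm_num, by norm_num, by norm_num⟩ (by
          have : RR (1, 1) = 2 := by
            unfold RR rad nn
            norm_num [Nat.Prime.primeFactors Nat.prime_two]
          rw [this]
          have h6 := Real.add_one_le_exp Λ0
          push_cast
          linarith)
        exact ⟨M, hM⟩
      obtain ⟨M, hM⟩ := hB0
      have hG := hBG e he M hM
      exact mem_Icc.mpr ⟨hG.e0, Nat.le_floor hG.e8⟩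
    calc (E.card : ℝ) ≤ ((Icc 1 ⌊8 * y⌋₊).card : ℝ) := by exact_mod_cast card_le_card h5
      _ = ⌊8 * y⌋₊ := by rw [Nat.card_Icc]; simp
      _ ≤ 8 * y := Nat.floor_le (by positivity)
  refine ⟨y, E.biUnion (fun e => (Bs e).image (fun M => (e, M))), h64, haΛ.trans hΛy, ?_, ?_, ?_, ?_⟩
  · exact Real.rpow_le_rpow_of_exponent_le hΛ11 (by linarith)
  · have h5 : ((E.biUnion (fun e => (Bs e).image (fun M => (e, M)))).card : ℝ) ≤
        ∑ e ∈ E, (a + 2) := by
      have h6 := card_biUnion_le (s := E) (t := fun e => (Bs e).image (fun M => (e, M)))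
      calc ((E.biUnion (fun e => (Bs e).image (fun M => (e, M)))).card : ℝ) ≤
          ((∑ e ∈ E, ((Bs e).image (fun M => (e, M))).card : ℕ) : ℝ) := by exact_mod_cast h6
        _ = ∑ e ∈ E, (((Bs e).image (fun M => (e, M))).card : ℝ) := by push_cast; rfl
        _ ≤ ∑ e ∈ E, (a + 2) := by
            apply sum_le_sum
            intro e he
            exact le_trans (by exact_mod_cast card_image_le) (hBc e he)
    rw [sum_const, nsmul_eq_mul] at h5
    refine h5.trans ?_
    calc (E.card : ℝ) * (a + 2) ≤ (8 * y) * (Λ + 2) := by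
          gcongr
      _ = y * (8 * (Λ + 2)) := by ring
      _ ≤ y * Λ ^ 3 := by
          apply mul_le_mul_of_nonneg_left _ hypos.le
          have h6 := (fam_c hΛ1).1
          have h7 := (fam_c hΛ1).2
          linarith
      _ = Λ ^ (C0 + 3) := by
          rw [Real.rpow_add hΛpos, hy, ← Real.rpow_natCast]
          norm_num
  · intro x hx
    obtain ⟨e, he, hx'⟩ := mem_biUnion.mp hx
    obtain ⟨M, hM, rfl⟩ := mem_image.mp hx'
    exact hBG e he M hM
  · intro v hv hR hhv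
    have hP : ((nn v).primeFactors.card : ℝ) * Real.log 2 ≤ a := by
      have h5 := fam_card hv (show (0 : ℝ) ≤ 2 by norm_num) hR (nn v).primeFactors (fun l hl => by
        have hp := Nat.mem_primeFactors.mp hl
        exact ⟨hp.1, hp.2.1, by exact_mod_cast hp.1.two_le⟩)
      have h6 := Real.log_le_log (by positivity) h5
      rwa [Real.log_pow] at h6
    have hlog5 : Real.log (5 * H) ≤ Λ := by
      rw [Real.log_mul (by norm_num) hH0.ne', hΛe]
      have : Real.log 5 ≤ 5 - 1 := Real.log_le_sub_one_of_pos (by norm_num)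
      linarith
    have hlog50 : 0 ≤ Real.log (5 * H) := Real.log_nonneg (by linarith)
    have hg1 : 1 ≤ Real.log (y ^ σ) := by
      rw [Real.le_log_iff_exp_le (by positivity)]
      have := Real.exp_one_lt_d9
      linarith
    obtain ⟨e, he, hge⟩ := h2 E (nn v).primeFactors (fun p => (nn v).factorization p) (5 * H)
      (y ^ σ) hEco (by linarith) (fun p hp => by
        have hp' := Nat.mem_primeFactors.mp hp
        refine ⟨?_, fam_exp hv hhv hp'.1⟩
        exact (hp'.1.dvd_iff_one_le_factorization hp'.2.2).mp hp'.2.1) (by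
        have h5 : ((nn v).primeFactors.card : ℝ) ≤ 2 * a := by
          have h6 : (0 : ℝ) ≤ ((nn v).primeFactors.card : ℝ) := by positivity
          exact fam_f h6 Real.log_two_gt_d9 hP
        calc ((nn v).primeFactors.card : ℝ) * Real.log (5 * H) ≤ (2 * Λ) * Λ := by
              apply mul_le_mul (by linarith) hlog5 hlog50 (by positivity)
          _ < Λ ^ 3 := by
              have h6 := (fam_c hΛ1).1
              have h7 : 0 < Λ ^ 2 := by positivity
              have h8 : 2 * Λ * Λ = 2 * Λ ^ 2 := by ring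
              rw [h8]; linarith
          _ ≤ y ^ τ := hyτ
          _ ≤ E.card := hEc
          _ = E.card * 1 := (mul_one _).symm
          _ ≤ E.card * Real.log (y ^ σ) := by gcongr)
    obtain ⟨M, hM, hd⟩ := hBv e he v hv hR
    exact ⟨(e, M), mem_biUnion.mpr ⟨e, he, mem_image.mpr ⟨M, hM, rfl⟩⟩, hge, hd⟩

end Pool.FEW
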